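import Pool.Agent.H9.KempeC4

set_option autoImplicit false

namespace Pool.Agent.Results.MP_de689f_co.C4

open Pool.Agent.H9.Kempe

theorem result : ∀ c : ℕ, ∃ (V : Type) (_ : Fintype V) (H : SimpleGraph V),
    (SimpleGraph.cycleGraph 4).Free H ∧ H.Colorable 3 ∧
      ∃ α β : H.Coloring (Fin (3 + c)), ¬ KempeEquiv H α β :=
  main

end Pool.Agent.Results.MP_de689f_co.C4
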